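import Mathlib

/-! # The duplication map on points `a + b + c = 0` over a number field -/

set_option autoImplicit false

open NumberField Height IsDedekindDomain Function

namespace Q241.AK

variable {K : Type*} [Field K] [NumberField K]

/-- the norm of the prime of a finite place -/
noncomputable def N (v : FinitePlace K) : ℝ := (Ideal.absNorm v.maximalIdeal.asIdeal : ℝ)

lemma one_lt_N (v : FinitePlace K) : 1 < N v := by
  unfold N
  exact_mod_cast HeightOneSpectrum.one_lt_absNorm v.maximalIdeal

lemma val_zpow (v : FinitePlace K) {x : K} (hx : x ≠ 0) : ∃ n : ℤ, v x = N v ^ n := by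
  have hN : 0 < N v := lt_trans one_pos (one_lt_N v)
  have hint : ∀ a : 𝓞 K, a ≠ 0 → ∃ n : ℤ, v (a : K) = N v ^ n := by
    intro a ha
    have h := FinitePlace.apply_mul_absNorm_pow_eq_one v ha
    refine ⟨-(multiplicity v.maximalIdeal.asIdeal (Ideal.span {a}) : ℤ), ?_⟩
    rw [zpow_neg, zpow_natCast]
    exact eq_inv_of_mul_eq_one_left h
  obtain ⟨a, b, hb, rfl⟩ := IsFractionRing.div_surjective (𝓞 K) x
  have hb0 : b ≠ 0 := nonZeroDivisors.ne_zero hb
  have ha0 : a ≠ 0 := by
    rintro rfl
    simp at hx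
  obtain ⟨n, hn⟩ := hint a ha0
  obtain ⟨m, hm⟩ := hint b hb0
  refine ⟨n - m, ?_⟩
  rw [map_div₀, zpow_sub₀ hN.ne', ← hn, ← hm]

lemma gap (v : FinitePlace K) {x y : K} (hx : x ≠ 0) (hy : y ≠ 0) (h : v x < v y) :
    N v * v x ≤ v y := by
  have hN := one_lt_N v
  have hN0 : 0 < N v := by linarith
  obtain ⟨n, hn⟩ := val_zpow v hx
  obtain ⟨m, hm⟩ := val_zpow v hy
  rw [hn, hm] at h ⊢
  have h1 : n < m := (zpow_lt_zpow_iff_right₀ hN).1 h
  calc N v * N v ^ n = N v ^ (n + 1) := by rw [zpow_add_one₀ hN0.ne', mul_comm]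
    _ ≤ N v ^ m := (zpow_le_zpow_iff_right₀ hN).2 (by omega)

/-- the maximum at a finite place -/
noncomputable def mf (x : Fin 3 → K) (v : FinitePlace K) : ℝ := ⨆ i, v (x i)

/-- the maximum at an infinite place -/
noncomputable def mi (x : Fin 3 → K) (w : InfinitePlace K) : ℝ := ⨆ i, w (x i)

lemma mf_fin {x : Fin 3 → K} (hx : ∀ i, x i ≠ 0) : HasFiniteMulSupport (mf x) :=
  HasFiniteMulSupport.iSup fun i => FinitePlace.hasFiniteMulSupport (hx i)

lemma le_mf (x : Fin 3 → K) (v : FinitePlace K) (i : Fin 3) : v (x i) ≤ mf x v :=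
  Finite.le_ciSup (fun i => v (x i)) i

omit [NumberField K] in
lemma le_mi (x : Fin 3 → K) (w : InfinitePlace K) (i : Fin 3) : w (x i) ≤ mi x w :=
  Finite.le_ciSup (fun i => w (x i)) i

lemma mf_pos {x : Fin 3 → K} (hx : ∀ i, x i ≠ 0) (v : FinitePlace K) : 0 < mf x v :=
  lt_of_lt_of_le (FinitePlace.pos_iff.2 (hx 0)) (le_mf x v 0)

omit [NumberField K] in
lemma mi_pos {x : Fin 3 → K} (hx : ∀ i, x i ≠ 0) (w : InfinitePlace K) : 0 < mi x w :=
  lt_of_lt_of_le (InfinitePlace.pos_iff.2 (hx 0)) (le_mi x w 0)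

lemma mf_attained (x : Fin 3 → K) (v : FinitePlace K) : ∃ i, mf x v = v (x i) := by
  obtain ⟨i, hi⟩ := exists_eq_ciSup_of_finite (f := fun i => v (x i))
  exact ⟨i, hi.symm⟩

lemma height_eq {x : Fin 3 → K} (hx : ∀ i, x i ≠ 0) :
    mulHeight x = (∏ w : InfinitePlace K, mi x w ^ w.mult) * ∏ᶠ v : FinitePlace K, mf x v :=
  NumberField.mulHeight_eq (fun h => hx 0 (by rw [h]; rfl))

/-- the factor of the primes in a set -/
noncomputable def pr (T : Set (FinitePlace K)) (v : FinitePlace K) : ℝ :=
  open Classical in if v ∈ T then N v else 1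

lemma one_le_pr (T : Set (FinitePlace K)) (v : FinitePlace K) : 1 ≤ pr T v := by
  unfold pr
  split_ifs
  · exact (one_lt_N v).le
  · exact le_rfl

lemma pr_fin {T : Set (FinitePlace K)} (hT : T.Finite) : HasFiniteMulSupport (pr T) := by
  refine hT.subset fun v hv => ?_
  by_contra h
  apply hv
  unfold pr
  rw [if_neg h]

/-- the primes at which the difference is small -/
theorem defect {x : Fin 3 → K} (hx : ∀ i, x i ≠ 0) {y : K} (hy : y ≠ 0)
    (h1 : ∀ v : FinitePlace K, v y ≤ mf x v) (h2 : ∀ w : InfinitePlace K, w y ≤ 2 * mi x w) :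
    {v : FinitePlace K | v y < mf x v}.Finite ∧
    ∏ᶠ v, pr {v : FinitePlace K | v y < mf x v} v ≤ 2 ^ Module.finrank ℚ K * mulHeight x := by
  have hfy : HasFiniteMulSupport (fun v : FinitePlace K => v y) := FinitePlace.hasFiniteMulSupport hy
  have hfin : {v : FinitePlace K | v y < mf x v}.Finite := by
    refine ((mf_fin hx).union hfy).subset fun v hv => ?_
    by_contra h
    rw [Set.mem_union, not_or, mem_mulSupport, mem_mulSupport, not_not, not_not] at h
    rw [Set.mem_ofPred_eq, h.1, h.2] at hv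
    exact lt_irrefl _ hv
  refine ⟨hfin, ?_⟩
  have hpt : ∀ v : FinitePlace K, pr {v : FinitePlace K | v y < mf x v} v ≤ mf x v / v y := by
    intro v
    have hv0 : 0 < v y := FinitePlace.pos_iff.2 hy
    unfold pr
    split_ifs with h
    · rw [le_div_iff₀ hv0]
      obtain ⟨i, hi⟩ := mf_attained x v
      rw [Set.mem_ofPred_eq, hi] at h
      rw [hi]
      exact gap v hy (hx i) h
    · rw [le_div_iff₀ hv0, one_mul]
      exact h1 v
  have hle : ∏ᶠ v, pr {v : FinitePlace K | v y < mf x v} v ≤ ∏ᶠ v : FinitePlace K, mf x v / v y :=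
    finprod_le_finprod (pr_fin hfin) (fun v => zero_le_one.trans (one_le_pr _ v))
    ((mf_fin hx).div hfy) hpt
  refine hle.trans ?_
  have hpf : ∏ᶠ v : FinitePlace K, v y = (∏ w : InfinitePlace K, w y ^ w.mult)⁻¹ :=
    eq_inv_of_mul_eq_one_right (NumberField.prod_abs_eq_one hy)
  rw [finprod_div_distrib (mf_fin hx) hfy, hpf, div_inv_eq_mul,
    height_eq hx, mul_comm (∏ᶠ v, mf x v), ← mul_assoc]
  have hmf : 0 ≤ ∏ᶠ v, mf x v := finprod_nonneg fun v => (mf_pos hx v).le
  refine mul_le_mul_of_nonneg_right ?_ hmf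
  rw [← InfinitePlace.sum_mult_eq, ← Finset.prod_pow_eq_pow_sum, ← Finset.prod_mul_distrib]
  refine Finset.prod_le_prod (fun w _ => by positivity) fun w _ => ?_
  rw [← mul_pow]
  exact pow_le_pow_left₀ (by positivity) (h2 w) _

/-- the primes at which the coordinates are not all of the same absolute value -/
def D (x : Fin 3 → K) : Set (FinitePlace K) := {v | ∃ i j, v (x i) ≠ v (x j)}

lemma D_fin {x : Fin 3 → K} (hx : ∀ i, x i ≠ 0) : (D x).Finite := by
  refine (Set.finite_iUnion fun i => FinitePlace.hasFiniteMulSupport (hx i)).subset fun v hv => ?_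
  obtain ⟨i, j, hij⟩ := hv
  rw [Set.mem_iUnion]
  by_contra h
  push Not at h
  apply hij
  have h1 : v (x i) = 1 := by
    have := h i
    rwa [mem_mulSupport, not_not] at this
  have h2 : v (x j) = 1 := by
    have := h j
    rwa [mem_mulSupport, not_not] at this
  rw [h1, h2]

/-- the multiplicative radical -/
noncomputable def Rd (x : Fin 3 → K) : ℝ := ∏ᶠ v, pr (D x) v

lemma one_le_Rd (x : Fin 3 → K) : 1 ≤ Rd x := one_le_finprod fun v => one_le_pr _ v

/-- the duplication -/
def dup (x : Fin 3 → K) : Fin 3 → K := fun i => x i * (x (i + 1) - x (i + 2)) ^ 3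

theorem Rd_dup {x : Fin 3 → K} (hx : ∀ i, x i ≠ 0) (hd : ∀ i, dup x i ≠ 0) :
    Rd (dup x) ≤ Rd x * (2 ^ Module.finrank ℚ K * mulHeight x) ^ 3 := by
  have hy : ∀ i : Fin 3, x (i + 1) - x (i + 2) ≠ 0 := by
    intro i h
    apply hd i
    unfold dup
    rw [h]
    ring
  have hdef := fun i : Fin 3 => defect hx (hy i)
    (fun v => by
      have h1 := FinitePlace.add_le v (x (i + 1)) (-x (i + 2))
      rw [← sub_eq_add_neg] at h1
      refine h1.trans (max_le (le_mf x v _) ?_)
      have : v (-x (i + 2)) = v (x (i + 2)) := v.val.map_neg _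
      rw [this]
      exact le_mf x v _)
    (fun w => by
      have h1 : w (x (i + 1) - x (i + 2)) ≤ w (x (i + 1)) + w (x (i + 2)) := by
        have g1 := w.val.add_le (x (i + 1)) (-x (i + 2))
        rw [← sub_eq_add_neg, w.val.map_neg] at g1
        exact g1
      have h2 := le_mi x w (i + 1)
      have h3 := le_mi x w (i + 2)
      linarith)
  obtain ⟨T, hT⟩ : ∃ T : Fin 3 → Set (FinitePlace K), T = fun i =>
      {v : FinitePlace K | v (x (i + 1) - x (i + 2)) < mf x v} := ⟨_, rfl⟩
  have hTf : ∀ i, (T i).Finite := fun i => by rw [hT]; exact (hdef i).1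
  have hTp : ∀ i, ∏ᶠ v, pr (T i) v ≤ 2 ^ Module.finrank ℚ K * mulHeight x := fun i => by
    rw [hT]; exact (hdef i).2
  have hpt : ∀ v : FinitePlace K, pr (D (dup x)) v ≤
      pr (D x) v * (pr (T 0) v * (pr (T 1) v * pr (T 2) v)) := by
    intro v
    have g0 := one_le_pr (D x) v
    have g1 := one_le_pr (T 0) v
    have g2 := one_le_pr (T 1) v
    have g3 := one_le_pr (T 2) v
    have g23 : 1 ≤ pr (T 1) v * pr (T 2) v := one_le_mul_of_one_le_of_one_le g2 g3
    have g123 : 1 ≤ pr (T 0) v * (pr (T 1) v * pr (T 2) v) := one_le_mul_of_one_le_of_one_le g1 g23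
    by_cases h : v ∈ D (dup x)
    · have e : pr (D (dup x)) v = N v := if_pos h
      rw [e]
      by_cases h0 : v ∈ D x
      · have e0 : pr (D x) v = N v := if_pos h0
        rw [e0]
        exact le_mul_of_one_le_right (by linarith [one_lt_N v]) g123
      · -- all the coordinates have the same absolute value
        have hall : ∀ i j, v (x i) = v (x j) := by
          intro i j
          by_contra hij
          exact h0 ⟨i, j, hij⟩
        have hm : ∀ i, v (x i) = mf x v := by
          intro i
          obtain ⟨j, hj⟩ := mf_attained x v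
          rw [hj]
          exact hall i j
        have hex : ∃ i, v ∈ T i := by
          by_contra hno
          push Not at hno
          obtain ⟨i, j, hij⟩ := h
          apply hij
          have hval : ∀ i, v (dup x i) = mf x v ^ 4 := by
            intro i
            have h3 : v (x (i + 1) - x (i + 2)) = mf x v := by
              refine le_antisymm ?_ ?_
              · have h1 := FinitePlace.add_le v (x (i + 1)) (-x (i + 2))
                rw [← sub_eq_add_neg] at h1
                refine h1.trans (max_le (le_mf x v _) ?_)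
                have : v (-x (i + 2)) = v (x (i + 2)) := v.val.map_neg _
                rw [this]
                exact le_mf x v _
              · have := hno i
                rw [hT, Set.mem_ofPred_eq, not_lt] at this
                exact this
            unfold dup
            rw [map_mul, map_pow, h3, hm i]
            ring
          rw [hval i, hval j]
        obtain ⟨i, hi⟩ := hex
        have eN : 0 ≤ N v := by linarith [one_lt_N v]
        have key : N v ≤ pr (T 0) v * (pr (T 1) v * pr (T 2) v) := by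
          have ei : pr (T i) v = N v := if_pos hi
          fin_cases i
          · change pr (T 0) v = N v at ei
            rw [ei]
            exact le_mul_of_one_le_right eN g23
          · change pr (T 1) v = N v at ei
            rw [ei]
            calc N v ≤ N v * pr (T 2) v := le_mul_of_one_le_right eN g3
              _ ≤ pr (T 0) v * (N v * pr (T 2) v) := le_mul_of_one_le_left (by positivity) g1
          · change pr (T 2) v = N v at ei
            rw [ei]
            calc N v ≤ pr (T 1) v * N v := le_mul_of_one_le_left eN g2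
              _ ≤ pr (T 0) v * (pr (T 1) v * N v) := le_mul_of_one_le_left (by positivity) g1
        calc N v ≤ pr (T 0) v * (pr (T 1) v * pr (T 2) v) := key
          _ ≤ pr (D x) v * (pr (T 0) v * (pr (T 1) v * pr (T 2) v)) :=
            le_mul_of_one_le_left (by linarith) g0
    · have e : pr (D (dup x)) v = 1 := if_neg h
      rw [e]
      exact one_le_mul_of_one_le_of_one_le g0 g123
  have f0 := pr_fin (D_fin hx)
  have f1 := pr_fin (hTf 0)
  have f2 := pr_fin (hTf 1)
  have f3 := pr_fin (hTf 2)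
  have f23 := f2.mul f3
  have f123 := f1.mul f23
  have h1 := finprod_le_finprod (pr_fin (D_fin hd)) (fun v => zero_le_one.trans (one_le_pr _ v))
    (f0.mul f123) hpt
  unfold Rd
  refine h1.trans ?_
  have e : ∏ᶠ v, (pr (D x) * (pr (T 0) * (pr (T 1) * pr (T 2)))) v =
      (∏ᶠ v, pr (D x) v) * ((∏ᶠ v, pr (T 0) v) * ((∏ᶠ v, pr (T 1) v) * ∏ᶠ v, pr (T 2) v)) := by
    have e1 := finprod_mul_distrib f2 f3
    have e2 := finprod_mul_distrib f1 f23
    have e3 := finprod_mul_distrib f0 f123
    simp only [Pi.mul_apply] at e1 e2 e3 ⊢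
    rw [e3, e2, e1]
  rw [e]
  have hR : 0 ≤ ∏ᶠ v, pr (D x) v := finprod_nonneg fun v => zero_le_one.trans (one_le_pr _ v)
  have p1 : 0 ≤ ∏ᶠ v, pr (T 0) v := finprod_nonneg fun v => zero_le_one.trans (one_le_pr _ v)
  have p2 : 0 ≤ ∏ᶠ v, pr (T 1) v := finprod_nonneg fun v => zero_le_one.trans (one_le_pr _ v)
  have p3 : 0 ≤ ∏ᶠ v, pr (T 2) v := finprod_nonneg fun v => zero_le_one.trans (one_le_pr _ v)
  have q : 0 ≤ 2 ^ Module.finrank ℚ K * mulHeight x := p1.trans (hTp 0)
  calc (∏ᶠ v, pr (D x) v) * ((∏ᶠ v, pr (T 0) v) * ((∏ᶠ v, pr (T 1) v) * ∏ᶠ v, pr (T 2) v)) ≤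
        (∏ᶠ v, pr (D x) v) * ((2 ^ Module.finrank ℚ K * mulHeight x) *
          ((2 ^ Module.finrank ℚ K * mulHeight x) * (2 ^ Module.finrank ℚ K * mulHeight x))) := by
          gcongr
          · exact hTp 0
          · exact hTp 1
          · exact hTp 2
    _ = _ := by ring

end Q241.AK
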