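import Pool.Agent.Q241.AK.A

/-! # The chain of reductions over a number field -/

set_option autoImplicit false

open NumberField Height Function MvPolynomial

namespace Q241.AK

variable {K : Type*} [Field K] [NumberField K]

/-- the polynomials of the duplication -/
noncomputable def dp : Fin 3 → MvPolynomial (Fin 3) K := fun i => X i * (X (i + 1) - X (i + 2)) ^ 3

omit [NumberField K] in
lemma dp_eval (x : Fin 3 → K) (i : Fin 3) : eval x (dp i) = dup x i := by
  unfold dp dup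
  simp

/-- the coefficients of the certificate -/
noncomputable def qA (i : Fin 3) : MvPolynomial (Fin 3) K :=
  C 1 * X i ^ 3 + C (154 / 81) * (X i ^ 2 * X (i + 1)) + C (88 / 81) * (X i * X (i + 1) ^ 2) +
    C (16 / 81) * X (i + 1) ^ 3

/-- the coefficients of the certificate -/
noncomputable def qB (i : Fin 3) : MvPolynomial (Fin 3) K :=
  C (80 / 81) * X i ^ 3 + C (128 / 81) * (X i ^ 2 * X (i + 1)) + C (128 / 81) * (X i * X (i + 1) ^ 2)

omit [NumberField K] in
lemma hom3 (c : K) (i : Fin 3) : (C c * X i ^ 3 : MvPolynomial (Fin 3) K).IsHomogeneous 3 := by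
  have := ((isHomogeneous_X K i).pow 3)
  simpa using (isHomogeneous_C (Fin 3) c).mul this

omit [NumberField K] in
lemma hom21 (c : K) (i j : Fin 3) :
    (C c * (X i ^ 2 * X j) : MvPolynomial (Fin 3) K).IsHomogeneous 3 := by
  have := ((isHomogeneous_X K i).pow 2).mul (isHomogeneous_X K j)
  simpa using (isHomogeneous_C (Fin 3) c).mul this

omit [NumberField K] in
lemma hom12 (c : K) (i j : Fin 3) :
    (C c * (X i * X j ^ 2) : MvPolynomial (Fin 3) K).IsHomogeneous 3 := by
  have := (isHomogeneous_X K i).mul ((isHomogeneous_X K j).pow 2)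
  simpa using (isHomogeneous_C (Fin 3) c).mul this

omit [NumberField K] in
lemma qA_hom (i : Fin 3) : (qA i : MvPolynomial (Fin 3) K).IsHomogeneous 3 :=
  (((hom3 1 i).add (hom21 _ i _)).add (hom12 _ i _)).add (hom3 _ (i + 1))

omit [NumberField K] in
lemma qB_hom (i : Fin 3) : (qB i : MvPolynomial (Fin 3) K).IsHomogeneous 3 :=
  ((hom3 _ i).add (hom21 _ i _)).add (hom12 _ i _)

/-- the certificate -/
noncomputable def qq : Fin 3 × Fin 3 → MvPolynomial (Fin 3) K := fun t =>
  if t.2 = t.1 then qA t.1 else if t.2 = t.1 + 1 then qB t.1 else 0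

omit [NumberField K] in
lemma qq_hom (t : Fin 3 × Fin 3) : (qq t : MvPolynomial (Fin 3) K).IsHomogeneous 3 := by
  unfold qq
  split_ifs
  · exact qA_hom _
  · exact qB_hom _
  · exact isHomogeneous_zero _ _ _

omit [NumberField K] in
lemma sum_rot (f : Fin 3 → K) (k : Fin 3) : ∑ j, f j = f k + f (k + 1) + f (k + 2) := by
  rw [Fin.sum_univ_three]
  have h1 : ∀ k : Fin 3, f 0 + f 1 + f 2 = f k + f (k + 1) + f (k + 2) := by
    intro k
    match k with
    | 0 => rfl
    | 1 =>
      show f 0 + f 1 + f 2 = f 1 + f 2 + f 0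
      ring
    | 2 =>
      show f 0 + f 1 + f 2 = f 2 + f 0 + f 1
      ring
  exact h1 k

lemma cert {x : Fin 3 → K} (hx : x 0 + x 1 + x 2 = 0) (k : Fin 3) :
    ∑ j, eval x (qq (k, j)) * eval x (dp j) = x k ^ (3 + 4) := by
  have hs : x k + x (k + 1) + x (k + 2) = 0 := by
    rw [← sum_rot, Fin.sum_univ_three]
    exact hx
  have h2 : x (k + 2) = -x k - x (k + 1) := by linear_combination hs
  obtain ⟨e1, e2, e3, e4, e5⟩ : k + 1 ≠ k ∧ k + 2 ≠ k ∧ k + 2 ≠ k + 1 ∧ k + 1 + 1 = k + 2 ∧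
      k + 1 + 2 = k := by
    clear hs h2
    revert k
    decide
  have q1 : qq (k, k) = (qA k : MvPolynomial (Fin 3) K) := if_pos rfl
  have q2 : qq (k, k + 1) = (qB k : MvPolynomial (Fin 3) K) := by
    unfold qq
    rw [if_neg e1, if_pos rfl]
  have q3 : qq (k, k + 2) = (0 : MvPolynomial (Fin 3) K) := by
    unfold qq
    rw [if_neg e2, if_neg e3]
  rw [sum_rot, q1, q2, q3]
  simp only [dp_eval]
  unfold dup qA qB
  rw [e4, e5]
  simp only [map_add, map_mul, map_pow, eval_C, eval_X, map_zero]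
  rw [h2]
  field_simp
  ring

theorem height_dup : ∃ C : ℝ, ∀ x : Fin 3 → K, x 0 + x 1 + x 2 = 0 →
    4 * logHeight x ≤ logHeight (dup x) + C := by
  obtain ⟨C, hC⟩ := logHeight_eval_ge' (K := K) (M := 3) (N := 4) (q := qq) qq_hom
  refine ⟨-C, fun x hx => ?_⟩
  have h := hC dp (cert hx)
  have e : (fun j => eval x (dp j)) = dup x := funext fun j => dp_eval x j
  rw [e] at h
  push_cast at h
  linarith

/-- nonzero coordinates with sum zero -/
def TT (x : Fin 3 → K) : Prop := x 0 + x 1 + x 2 = 0 ∧ ∀ i, x i ≠ 0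

omit [NumberField K] in
lemma dup_sum {x : Fin 3 → K} (hx : x 0 + x 1 + x 2 = 0) : dup x 0 + dup x 1 + dup x 2 = 0 := by
  have h2 : x 2 = -x 0 - x 1 := by linear_combination hx
  show x 0 * (x 1 - x 2) ^ 3 + x 1 * (x 2 - x 0) ^ 3 + x 2 * (x 0 - x 1) ^ 3 = 0
  rw [h2]
  ring

/-- cubes up to factors of small height -/
def S (C : ℝ) (r : ℕ) (x : Fin 3 → K) : Prop := ∃ u y : Fin 3 → K, TT u ∧ (∀ i, x i = u i * y i ^ 3) ∧
  4 ^ r * logHeight u ≤ logHeight x + (4 ^ r - 1) * C

/-- the points obtained by `r` duplications -/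
def P : ℕ → (Fin 3 → K) → Prop
  | 0, x => TT x
  | r + 1, x => ∃ s, P r s ∧ x = dup s ∧ TT x

lemma S_zero (C : ℝ) {x : Fin 3 → K} (hx : TT x) : S C 0 x :=
  ⟨x, fun _ => 1, hx, fun i => by ring, by simp⟩

lemma S_succ {C : ℝ} (hC : 0 ≤ C) {x : Fin 3 → K} (hd : 4 * logHeight x ≤ logHeight (dup x) + C)
    {r : ℕ} (h : S C r x) : S C (r + 1) (dup x) := by
  obtain ⟨u, y, h1, h2, h3⟩ := h
  refine ⟨u, fun i => y i * (x (i + 1) - x (i + 2)), h1, fun i => ?_, ?_⟩
  · show x i * (x (i + 1) - x (i + 2)) ^ 3 = _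
    rw [h2 i]
    ring
  · have h4 : (4 : ℝ) ^ (r + 1) = 4 * 4 ^ r := by ring
    rw [h4]
    have h5 : (1 : ℝ) ≤ 4 ^ r := one_le_pow₀ (by norm_num)
    nlinarith

omit [NumberField K] in
lemma P_TT (r : ℕ) : ∀ x : Fin 3 → K, P r x → TT x := by
  induction r with
  | zero => exact fun x hx => hx
  | succ r ih => exact fun x ⟨_, _, _, h⟩ => h

omit [NumberField K] in
lemma P_src (r : ℕ) : ∀ x : Fin 3 → K, P r x → ∃ u, TT u ∧ x = dup^[r] u := by
  induction r with
  | zero => exact fun x hx => ⟨x, hx, rfl⟩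
  | succ r ih =>
    rintro x ⟨s, hs, rfl, -⟩
    obtain ⟨u, hu, hsu⟩ := ih s hs
    exact ⟨u, hu, by rw [Function.iterate_succ_apply', ← hsu]⟩

/-- the logarithmic radical -/
noncomputable def rd (x : Fin 3 → K) : ℝ := Real.log (Rd x)

lemma rd_nonneg (x : Fin 3 → K) : 0 ≤ rd x := Real.log_nonneg (one_le_Rd x)

lemma rd_dup {x : Fin 3 → K} (hx : ∀ i, x i ≠ 0) (hd : ∀ i, dup x i ≠ 0) :
    rd (dup x) ≤ rd x + 3 * logHeight x + 3 * (Module.finrank ℚ K * Real.log 2) := by
  have h1 := Rd_dup hx hd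
  have hH := mulHeight_pos x
  have hR : 0 < Rd x := lt_of_lt_of_le one_pos (one_le_Rd x)
  have h2 := Real.log_le_log (lt_of_lt_of_le one_pos (one_le_Rd (dup x))) h1
  rw [Real.log_mul hR.ne' (by positivity), Real.log_pow, Real.log_mul (by positivity) hH.ne',
    Real.log_pow] at h2
  push_cast at h2
  unfold rd
  rw [logHeight_eq_log_mulHeight]
  linarith

/-- the inequality for the points with the property `Q` -/
def ABCfor (Q : (Fin 3 → K) → Prop) : Prop := ∀ ε : ℝ, 0 < ε → ∃ C : ℝ, ∀ x : Fin 3 → K, Q x →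
  logHeight x ≤ (1 + ε) * rd x + C

/-- the degenerate points -/
lemma degenerate {x : Fin 3 → K} (hx : TT x) (hd : ¬ ∀ i, dup x i ≠ 0) :
    logHeight x ≤ Real.log (2 ^ Module.finrank ℚ K) := by
  push Not at hd
  obtain ⟨i, hi⟩ := hd
  have h1 : x (i + 1) - x (i + 2) = 0 := by
    have : x i * (x (i + 1) - x (i + 2)) ^ 3 = 0 := hi
    exact pow_eq_zero_iff (by norm_num) |>.1 ((mul_eq_zero.1 this).resolve_left (hx.2 i))
  have hs : x i + x (i + 1) + x (i + 2) = 0 := by
    rw [← sum_rot, Fin.sum_univ_three]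
    exact hx.1
  have h2 : x i = -2 * x (i + 1) := by linear_combination hs + h1
  have h3 : x (i + 2) = x (i + 1) := by linear_combination -h1
  have hc : x (i + 1) ≠ 0 := hx.2 _
  obtain ⟨z, hz⟩ : ∃ z : Fin 3 → K, z = (x (i + 1))⁻¹ • x := ⟨_, rfl⟩
  have hzH : mulHeight z = mulHeight x := by
    rw [hz]
    exact mulHeight_smul_eq_mulHeight x (inv_ne_zero hc)
  have hz1 : ∀ j, z j = -2 ∨ z j = 1 := by
    intro j
    have h4 : j = i ∨ j = i + 1 ∨ j = i + 2 := by
      clear hz hzH h1 h2 h3 hs hi hc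
      revert i j
      decide
    rw [hz]
    rcases h4 with h4 | h4 | h4
    · left
      rw [h4, Pi.smul_apply, smul_eq_mul, h2]
      field_simp
    · right
      rw [h4, Pi.smul_apply, smul_eq_mul]
      exact inv_mul_cancel₀ hc
    · right
      rw [h4, Pi.smul_apply, smul_eq_mul, h3]
      exact inv_mul_cancel₀ hc
  have hz0 : ∀ j, z j ≠ 0 := by
    intro j
    rcases hz1 j with h | h <;> rw [h] <;> norm_num
  rw [logHeight_eq_log_mulHeight, ← hzH]
  refine Real.log_le_log (mulHeight_pos _) ?_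
  rw [height_eq hz0]
  have hfin : ∏ᶠ v : FinitePlace K, mf z v ≤ 1 := by
    have : ∏ᶠ v : FinitePlace K, mf z v ≤ ∏ᶠ v : FinitePlace K, (1 : ℝ) :=
      finprod_le_finprod (mf_fin hz0) (fun v => (mf_pos hz0 v).le) (by simp [HasFiniteMulSupport])
        (fun v => by
          obtain ⟨j, hj⟩ := mf_attained z v
          rw [hj]
          rcases hz1 j with h | h
          · rw [h]
            have := FinitePlace.add_le v (-1 : K) (-1)
            have e1 : (-1 : K) + -1 = -2 := by norm_num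
            rw [e1] at this
            refine this.trans ?_
            have e2 : v (-1 : K) = 1 := by
              have : v (-1 : K) = v (1 : K) := v.val.map_neg _
              rw [this, map_one]
            rw [e2, max_self]
          · rw [h, map_one])
    simpa using this
  have hinf : ∏ w : InfinitePlace K, mi z w ^ w.mult ≤ 2 ^ Module.finrank ℚ K := by
    rw [← InfinitePlace.sum_mult_eq, ← Finset.prod_pow_eq_pow_sum]
    refine Finset.prod_le_prod (fun w _ => pow_nonneg (mi_pos hz0 w).le _) fun w _ =>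
      pow_le_pow_left₀ (mi_pos hz0 w).le (ciSup_le fun j => ?_) _
    rcases hz1 j with h | h
    · rw [h]
      have : w (-2 : K) = w (2 : K) := w.val.map_neg _
      rw [this]
      have h5 := w.val.add_le (1 : K) 1
      have e1 : (1 : K) + 1 = 2 := by norm_num
      rw [e1] at h5
      have e2 : w.val (1 : K) = 1 := map_one w
      rw [e2] at h5
      exact h5.trans (by norm_num)
    · rw [h, map_one]
      norm_num
  calc (∏ w : InfinitePlace K, mi z w ^ w.mult) * ∏ᶠ v : FinitePlace K, mf z v ≤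
        2 ^ Module.finrank ℚ K * 1 := by
          gcongr
          exact finprod_nonneg fun v => (mf_pos hz0 v).le
    _ = 2 ^ Module.finrank ℚ K := mul_one _

theorem step (r : ℕ) (h : ABCfor (P (K := K) (r + 1))) : ABCfor (P (K := K) r) := by
  intro ε hε
  obtain ⟨δ, hδ⟩ : ∃ δ : ℝ, δ = ε / (4 + 3 * ε) := ⟨_, rfl⟩
  have hd : 0 < 4 + 3 * ε := by positivity
  have hδ0 : 0 < δ := by rw [hδ]; positivity
  have hδ1 : 0 < 1 - 3 * δ := by
    rw [hδ, sub_pos, mul_div_assoc', div_lt_one hd]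
    linarith
  have hδ2 : (1 + δ) = (1 + ε) * (1 - 3 * δ) := by
    rw [hδ]
    field_simp
    ring
  obtain ⟨C, hC⟩ := h δ hδ0
  obtain ⟨C1, hC1⟩ := height_dup (K := K)
  obtain ⟨L, hL⟩ : ∃ L : ℝ, L = 3 * (Module.finrank ℚ K * Real.log 2) := ⟨_, rfl⟩
  obtain ⟨M, hM⟩ : ∃ M : ℝ, M = (C + C1 + (1 + δ) * L) / (1 - 3 * δ) := ⟨_, rfl⟩
  refine ⟨max M (Real.log (2 ^ Module.finrank ℚ K)), fun x hx => ?_⟩
  have hT := P_TT r x hx
  have hr := rd_nonneg x
  by_cases hdeg : ∀ i, dup x i ≠ 0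
  · have h1 := hC (dup x) ⟨x, hx, rfl, dup_sum hT.1, hdeg⟩
    have h2 := hC1 x hT.1
    have h3 := rd_dup hT.2 hdeg
    rw [← hL] at h3
    have h4 : (1 + δ) * rd (dup x) ≤ (1 + δ) * (rd x + 3 * logHeight x + L) := by gcongr
    have h5 : (1 - 3 * δ) * logHeight x ≤ (1 - 3 * δ) * ((1 + ε) * rd x + M) := by
      have e1 : (1 - 3 * δ) * M = C + C1 + (1 + δ) * L := by
        rw [hM]
        field_simp
      have e2 : (1 - 3 * δ) * ((1 + ε) * rd x + M) = (1 + δ) * rd x + (1 - 3 * δ) * M := by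
        rw [hδ2]
        ring
      rw [e2, e1]
      nlinarith
    have h6 := le_of_mul_le_mul_left h5 hδ1
    exact h6.trans (by gcongr; exact le_max_left _ _)
  · have h1 := degenerate hT hdeg
    have h2 : 0 ≤ (1 + ε) * rd x := by positivity
    have h3 := le_max_right M (Real.log (2 ^ Module.finrank ℚ K))
    linarith

theorem chain (r : ℕ) (h : ABCfor (P (K := K) r)) : ABCfor (P (K := K) 0) := by
  induction r with
  | zero => exact h
  | succ r ih => exact ih (step r h)

/-- **The reduction over a number field** -/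
theorem reduction {η : ℝ} (hη : 0 < η)
    (h : ABCfor (fun x : Fin 3 → K => TT x ∧ ∃ u y : Fin 3 → K, TT u ∧ (∀ i, x i = u i * y i ^ 3) ∧
      logHeight u ≤ η * logHeight x)) : ABCfor (TT (K := K)) := by
  obtain ⟨C0, hC0⟩ := height_dup (K := K)
  obtain ⟨C, hC⟩ : ∃ C : ℝ, C = max C0 0 := ⟨_, rfl⟩
  have hCp : 0 ≤ C := by rw [hC]; exact le_max_right _ _
  have hCd : ∀ x : Fin 3 → K, x 0 + x 1 + x 2 = 0 → 4 * logHeight x ≤ logHeight (dup x) + C :=
    fun x hx => (hC0 x hx).trans (by rw [hC]; gcongr; exact le_max_left _ _)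
  obtain ⟨r, hr⟩ : ∃ r : ℕ, 2 / (4 : ℝ) ^ r < η := by
    obtain ⟨r, hr⟩ := pow_unbounded_of_one_lt (2 / η) (by norm_num : (1 : ℝ) < 4)
    refine ⟨r, ?_⟩
    rw [div_lt_iff₀ hη] at hr
    rw [div_lt_iff₀ (by positivity)]
    linarith
  have h4 : (1 : ℝ) ≤ 4 ^ r := one_le_pow₀ (by norm_num)
  have hPS : ∀ r : ℕ, ∀ x : Fin 3 → K, P r x → S C r x := by
    intro r
    induction r with
    | zero => exact fun x hx => S_zero C hx
    | succ r ih =>
      rintro x ⟨s, hs, rfl, -⟩
      exact S_succ hCp (hCd s (P_TT r s hs).1) (ih s hs)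
  refine chain r fun ε hε => ?_
  obtain ⟨B, hB⟩ := h ε hε
  refine ⟨max B ((4 ^ r - 1) * C), fun x hx => ?_⟩
  have hT := P_TT r x hx
  rcases le_or_gt ((4 ^ r - 1) * C) (logHeight x) with h1 | h1
  · obtain ⟨u, y, g1, g2, g3⟩ := hPS r x hx
    have h2 := hB x ⟨hT, u, y, g1, g2, by
      have h3 : 4 ^ r * logHeight u ≤ 2 * logHeight x := by linarith
      have h5 : logHeight u ≤ 2 / 4 ^ r * logHeight x := by
        rw [div_mul_eq_mul_div, le_div_iff₀ (by positivity)]
        linarith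
      refine h5.trans ?_
      have := logHeight_nonneg x
      gcongr⟩
    exact h2.trans (by gcongr; exact le_max_left _ _)
  · have h2 : 0 ≤ (1 + ε) * rd x := by
      have := rd_nonneg x
      positivity
    have h3 := le_max_right B ((4 ^ r - 1) * C)
    linarith

end Q241.AK
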